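import Pool.Agent.H25.CFL.Targets

/-!
# MP_e37c09_lc: the cofinality law, module S3 (helper40)
-/

open Ordinal Cardinal Order Set
open scoped ZFSet

universe u

namespace Pool.Agent.H40.HCL

open _root_.HD Pool.Agent.H25.CFL

/-- a countable set of ordinals is bounded below an ordinal of uncountable cofinality -/
theorem bdd_of_countable {th : Ordinal.{u}} (hth : ℵ₀ < th.cof) {S : Set Ordinal.{u}}
    (hS : S.Countable) (hlt : ∀ t ∈ S, t < th) : ∃ y < th, ∀ t ∈ S, t ≤ y := by
  rcases S.eq_empty_or_nonempty with he | hne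
  · refine ⟨0, ?_, fun t ht => ?_⟩
    · exact Ordinal.cof_pos.1 (aleph0_pos.trans hth)
    · rw [he] at ht
      exact absurd ht (notMem_empty t)
  · obtain ⟨f, hf⟩ := hS.exists_eq_range hne
    have hft : ∀ i, f i < th := fun i => hlt _ (by rw [hf]; exact mem_range_self i)
    have h1 : (⨆ i, f i) < th := by
      apply lift_iSup_lt_of_lt_cof _ hft
      rw [mk_nat, lift_aleph0, Ordinal.lift_uzero]
      exact hth
    refine ⟨⨆ i, f i, h1, fun t ht => ?_⟩
    rw [hf] at ht
    obtain ⟨i, rfl⟩ := ht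
    exact le_ciSup ⟨th, by rintro _ ⟨j, rfl⟩; exact (hft j).le⟩ i

/-- S3: the regular cardinals of HOD with countably many cardinals of HOD between `γ` and them -/
theorem pf_S3 (hB1 : Pool.Agent.H25.CFL.T_B1.{u}) (hRC : T_RC1.{u}) : T_S3.{u} := by
  intro D γ lam hD hDγ hOm hle hreg hcount
  by_contra hne
  rcases hB1 D lam hD hreg (hDγ.trans_le hle) with h | ⟨th, hL, -⟩
  · exact hne h
  have h0 : ℵ₀ ≤ lam.cof := aleph0_le_cof.2 hreg.1
  have h1 : ℵ₀ < lam.cof := lt_of_le_of_ne h0 (Ne.symm hne)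
  have hγlam : γ < lam := by
    refine lt_of_le_of_ne hle fun h => hne ?_
    rw [← h]
    exact hOm.1
  have hγth : γ ≤ th := by
    by_contra hcon
    push Not at hcon
    rcases hOm.2 with h | h
    · have h2 := hL.top γ hcon.le hγlam h
      rw [hOm.1] at h2
      exact absurd h1 (not_lt.2 h2)
    · obtain ⟨t, ht1, ht2, ht3, ht4⟩ := h th hcon
      have h2 := hL.top t ht1.le (ht2.trans hγlam) ht3
      rw [ht4] at h2
      exact absurd h1 (not_lt.2 h2)
  have hγth' : γ < th := by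
    refine lt_of_le_of_ne hγth fun h => ?_
    have h2 := hL.cof
    rw [← h, hOm.1] at h2
    exact hne h2.symm
  have hcof : ℵ₀ < th.cof := by
    rw [hL.cof]
    exact h1
  have hS : {t : Ordinal.{u} | γ < t ∧ t < th ∧ RegHOD t ∧ t.cof = ℵ₀}.Countable := by
    refine hcount.mono fun t ht => ?_
    exact ⟨ht.1.le, ht.2.1.trans_le hL.le, hRC t ht.2.2.1⟩
  obtain ⟨y, hy, hyS⟩ := bdd_of_countable hcof hS fun t ht => ht.2.1
  obtain ⟨a, ha1, ha2, ha3, ha4⟩ :=
    hL.unb ℵ₀ isRegular_aleph0 h1 hD.2.2.1 (max y γ) (max_lt hy hγth')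
  have h3 := hyS a ⟨(le_max_right y γ).trans_lt ha1, ha2, ha3, ha4⟩
  exact absurd ((le_max_left y γ).trans_lt ha1) (not_lt.2 h3)

end Pool.Agent.H40.HCL
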